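import Pool.Agent.Y318.LF.Stm

/-!
# Closed subgroups of `ℝ^d`, and Dirichlet's theorem (for helper318's project LF)
-/

set_option autoImplicit false

open Set Filter Topology

namespace Pool.Agent.Y785.LF

open Pool.Agent.Y318.LF

theorem subg : S_SUBG := by
  intro d S hS
  by_contra hcon
  push Not at hcon
  obtain ⟨W, hW⟩ : ∃ W : Set (Fin d → ℝ), W = {w | ∀ t : ℝ, t • w ∈ S} := ⟨_, rfl⟩
  have hmem : ∀ w, w ∈ W ↔ ∀ t : ℝ, t • w ∈ S := fun w => by rw [hW]; exact Iff.rfl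
  have hWadd : ∀ a ∈ W, ∀ b ∈ W, a + b ∈ W := by
    intro a ha b hb
    rw [hmem] at ha hb ⊢
    intro t
    rw [smul_add]
    exact S.add_mem (ha t) (hb t)
  have hWsmul : ∀ c : ℝ, ∀ a ∈ W, c • a ∈ W := by
    intro c a ha
    rw [hmem] at ha ⊢
    intro t
    rw [smul_smul]
    exact ha _
  have hWS : ∀ a ∈ W, a ∈ S := by
    intro a ha
    rw [hmem] at ha
    simpa using ha 1
  have hW0 : (0 : Fin d → ℝ) ∈ W := by
    rw [hmem]
    intro t
    rw [smul_zero]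
    exact S.zero_mem
  have hWc : IsClosed W := by
    have h : W = ⋂ t : ℝ, (fun w : Fin d → ℝ => t • w) ⁻¹' (S : Set (Fin d → ℝ)) := by
      ext w
      rw [hmem, Set.mem_iInter]
      exact Iff.rfl
    rw [h]
    exact isClosed_iInter fun t => hS.preimage (continuous_const_smul t)
  choose s hs hsn t ht using fun n : ℕ => hcon (1 / ((n : ℝ) + 1)) (by positivity)
  choose w hw hwd using fun n : ℕ => hWc.exists_infDist_eq_dist ⟨0, hW0⟩ (s n)
  obtain ⟨u, hu⟩ : ∃ u : ℕ → (Fin d → ℝ), ∀ n, u n = s n - w n := ⟨_, fun _ => rfl⟩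
  have hu0 : ∀ n, u n ≠ 0 := by
    intro n h
    rw [hu, sub_eq_zero] at h
    refine ht n ?_
    rw [h]
    exact (hmem _).1 (hw n) _
  have hudist : ∀ n, ‖u n‖ = Metric.infDist (s n) W := by
    intro n
    rw [hwd n, dist_eq_norm, hu]
  have hun : ∀ n, ‖u n‖ ≤ ‖s n‖ := by
    intro n
    rw [hudist, ← dist_zero_right]
    exact Metric.infDist_le_dist_of_mem hW0
  have huS : ∀ n, u n ∈ S := by
    intro n
    rw [hu]
    exact S.sub_mem (hs n) (hWS _ (hw n))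
  have hpos : ∀ n, 0 < ‖u n‖ := fun n => norm_pos_iff.2 (hu0 n)
  have hlim0 : Tendsto (fun n => ‖u n‖) atTop (𝓝 0) := by
    refine squeeze_zero (fun n => norm_nonneg _) (fun n => (hun n).trans (hsn n).le) ?_
    exact tendsto_one_div_add_atTop_nhds_zero_nat
  have hv : ∀ n, ‖(‖u n‖⁻¹ : ℝ) • u n‖ = 1 := by
    intro n
    rw [norm_smul, norm_inv, norm_norm, inv_mul_cancel₀ (hpos n).ne']
  have hvW : ∀ n, ∀ a ∈ W, 1 ≤ ‖(‖u n‖⁻¹ : ℝ) • u n - a‖ := by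
    intro n a ha
    have h1 : ‖u n‖ ≤ ‖u n - ‖u n‖ • a‖ := by
      have h2 : Metric.infDist (s n) W ≤ dist (s n) (w n + ‖u n‖ • a) :=
        Metric.infDist_le_dist_of_mem (hWadd _ (hw n) _ (hWsmul _ _ ha))
      rw [← hudist, dist_eq_norm] at h2
      rw [hu n] at h2 ⊢
      rwa [sub_sub]
    have h3 : (‖u n‖⁻¹ : ℝ) • u n - a = (‖u n‖⁻¹ : ℝ) • (u n - ‖u n‖ • a) := by
      rw [smul_sub, smul_smul, inv_mul_cancel₀ (hpos n).ne', one_smul]
    rw [h3, norm_smul, norm_inv, norm_norm]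
    rw [← inv_mul_cancel₀ (hpos n).ne']
    exact mul_le_mul_of_nonneg_left h1 (inv_nonneg.2 (hpos n).le)
  obtain ⟨v, -, φ, hφ, hlim⟩ := (isCompact_sphere (0 : Fin d → ℝ) 1).tendsto_subseq
    (x := fun n => (‖u n‖⁻¹ : ℝ) • u n) (fun n => by
      rw [mem_sphere_zero_iff_norm]
      exact hv n)
  have hvmem : v ∈ W := by
    rw [hmem]
    intro r
    have h1 : Tendsto (fun n => ⌊r / ‖u (φ n)‖⌋ • u (φ n)) atTop (𝓝 (r • v)) := by
      have h2 : ∀ n, ⌊r / ‖u (φ n)‖⌋ • u (φ n) =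
          ((⌊r / ‖u (φ n)‖⌋ : ℝ) * ‖u (φ n)‖) • ((‖u (φ n)‖⁻¹ : ℝ) • u (φ n)) := by
        intro n
        rw [smul_smul, mul_assoc, mul_inv_cancel₀ (hpos _).ne', mul_one, Int.cast_smul_eq_zsmul]
      simp_rw [h2]
      refine Tendsto.smul ?_ hlim
      have h3 : Tendsto (fun n => r - ‖u (φ n)‖) atTop (𝓝 r) := by
        have h4 := (tendsto_const_nhds (x := r)).sub (hlim0.comp hφ.tendsto_atTop)
        rw [sub_zero] at h4
        exact h4
      refine tendsto_of_tendsto_of_tendsto_of_le_of_le h3 tendsto_const_nhds ?_ ?_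
      · intro n
        have h5 := Int.lt_floor_add_one (r / ‖u (φ n)‖)
        rw [div_lt_iff₀ (hpos _)] at h5
        show r - ‖u (φ n)‖ ≤ (⌊r / ‖u (φ n)‖⌋ : ℝ) * ‖u (φ n)‖
        nlinarith
      · intro n
        have h5 := Int.floor_le (r / ‖u (φ n)‖)
        rwa [le_div_iff₀ (hpos _)] at h5
    exact hS.mem_of_tendsto h1 (Eventually.of_forall fun n => S.zsmul_mem (huS _) _)
  have h1 : Tendsto (fun n => ‖(‖u (φ n)‖⁻¹ : ℝ) • u (φ n) - v‖) atTop (𝓝 ‖v - v‖) :=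
    (hlim.sub tendsto_const_nhds).norm
  have h2 := ge_of_tendsto' h1 fun n => hvW (φ n) v hvmem
  rw [sub_self, norm_zero] at h2
  exact absurd h2 (by norm_num)

theorem dir : S_DIR := by
  intro d v ε hε
  obtain ⟨x, -, φ, hφ, hlim⟩ := (isCompact_Icc (a := (0 : Fin d → ℝ)) (b := 1)).tendsto_subseq
    (x := fun n : ℕ => fun i => Int.fract ((n : ℝ) * v i))
    (fun n => ⟨fun i => Int.fract_nonneg _, fun i => (Int.fract_lt_one _).le⟩)
  have hc := hlim.cauchySeq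
  rw [Metric.cauchySeq_iff'] at hc
  obtain ⟨N, hN⟩ := hc ε hε
  have h1 := hN (N + 1) (by omega)
  have h2 : φ N < φ (N + 1) := hφ (Nat.lt_succ_self N)
  refine ⟨φ (N + 1) - φ N, by omega, fun i => ((⌊(φ (N + 1) : ℝ) * v i⌋ -
    ⌊(φ N : ℝ) * v i⌋ : ℤ) : ℝ), fun i => ⟨_, rfl⟩, ?_⟩
  rw [dist_eq_norm] at h1
  have h3 : (((φ (N + 1) - φ N : ℕ) : ℝ) • v - fun i => ((⌊(φ (N + 1) : ℝ) * v i⌋ -
      ⌊(φ N : ℝ) * v i⌋ : ℤ) : ℝ)) =
      ((fun n : ℕ => fun i => Int.fract ((n : ℝ) * v i)) ∘ φ) (N + 1) -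
        ((fun n : ℕ => fun i => Int.fract ((n : ℝ) * v i)) ∘ φ) N := by
    funext i
    show ((φ (N + 1) - φ N : ℕ) : ℝ) * v i - ((⌊(φ (N + 1) : ℝ) * v i⌋ -
      ⌊(φ N : ℝ) * v i⌋ : ℤ) : ℝ) =
      Int.fract ((φ (N + 1) : ℝ) * v i) - Int.fract ((φ N : ℝ) * v i)
    rw [Nat.cast_sub h2.le, Int.cast_sub, Int.fract, Int.fract]
    ring
  rw [h3]
  exact h1

end Pool.Agent.Y785.LF
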